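import Mathlib

namespace Pool.Agent.Results.MP_0d5a8e_co.Diag

open Matrix Module

def nx (i : Fin 12) : Fin 12 := ⟨i.val / 6 * 6 + (i.val + 1) % 6, by omega⟩
def pv (i : Fin 12) : Fin 12 := ⟨i.val / 6 * 6 + (i.val + 5) % 6, by omega⟩

def GG : SimpleGraph (Fin 12) where
  Adj i j := i ≠ j ∧ j ≠ nx i ∧ j ≠ pv i
  symm := ⟨by decide⟩
  loopless := ⟨fun _ h => h.1 rfl⟩

instance : DecidableRel GG.Adj := fun i j =>
  inferInstanceAs (Decidable (i ≠ j ∧ j ≠ nx i ∧ j ≠ pv i))

theorem mv (x : Fin 12 → ℝ) (i : Fin 12) :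
    (GG.adjMatrix ℝ *ᵥ x) i = ∑ j, x j - x i - x (nx i) - x (pv i) := by
  rw [SimpleGraph.adjMatrix_mulVec_apply]
  have h : ∀ i, GG.neighborFinset i = ((Finset.univ.erase i).erase (nx i)).erase (pv i) := by
    decide +kernel
  have h1 : ∀ i, nx i ∈ Finset.univ.erase i := by decide +kernel
  have h2 : ∀ i, pv i ∈ (Finset.univ.erase i).erase (nx i) := by decide +kernel
  rw [h, Finset.sum_erase_eq_sub (h2 i), Finset.sum_erase_eq_sub (h1 i),
    Finset.sum_erase_eq_sub (Finset.mem_univ i)]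

theorem mem_iff (m : ℝ) (x : Fin 12 → ℝ) :
    x ∈ End.eigenspace (toLin' (GG.adjMatrix ℝ)) m ↔
      ∀ i, ∑ j, x j - x i - x (nx i) - x (pv i) = m * x i := by
  rw [End.mem_eigenspace_iff, toLin'_apply, funext_iff]
  simp only [mv, Pi.smul_apply, smul_eq_mul]

theorem sum0 (m : ℝ) (x : Fin 12 → ℝ)
    (h : ∀ i, ∑ j, x j - x i - x (nx i) - x (pv i) = m * x i) (hm : m ≠ 9) : ∑ j, x j = 0 := by
  have h1 : ∑ i, x (nx i) = ∑ i, x i :=
    Function.Bijective.sum_comp (by decide +kernel : Function.Bijective nx) x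
  have h2 : ∑ i, x (pv i) = ∑ i, x i :=
    Function.Bijective.sum_comp (by decide +kernel : Function.Bijective pv) x
  have h3 := Finset.sum_congr (rfl : (Finset.univ : Finset (Fin 12)) = _) fun i _ => h i
  simp only [Finset.sum_sub_distrib, h1, h2, ← Finset.mul_sum, Finset.sum_const,
    Finset.card_univ, Fintype.card_fin, nsmul_eq_mul] at h3
  have : (m - 9) * ∑ j, x j = 0 := by push_cast at h3; linarith
  exact (mul_eq_zero.1 this).resolve_left (sub_ne_zero.2 hm)

def uu (k : Fin 2) (i : Fin 12) : ℝ := if i.val / 6 = k.val then (-1) ^ i.val else 0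

theorem uu_mem (k : Fin 2) : uu k ∈ End.eigenspace (toLin' (GG.adjMatrix ℝ)) 1 := by
  rw [mem_iff]
  intro i
  fin_cases k <;> fin_cases i <;> simp [uu, nx, pv, Fin.sum_univ_succ] <;> norm_num

theorem result : ∃ (G : SimpleGraph (Fin 12)) (_ : DecidableRel G.Adj) (t₁ t₂ : ℝ)
    (u : Fin 2 → Fin 12 → ℝ) (i j : Fin 12),
    G.Connected ∧ G.IsRegularOfDegree 9 ∧ t₂ < t₁ ∧
    End.HasEigenvalue (toLin' (G.adjMatrix ℝ)) t₁ ∧
    (∀ m, End.HasEigenvalue (toLin' (G.adjMatrix ℝ)) m → m = t₁ ∨ m ≤ t₂) ∧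
    LinearIndependent ℝ u ∧
    Submodule.span ℝ (Set.range u) = End.eigenspace (toLin' (G.adjMatrix ℝ)) t₂ ∧
    G.Adj i j ∧ (fun k => u k i) ≠ (fun k => u k j) ∧
    (fun k => u k i) ∈ (convexHull ℝ (Set.range fun a k => u k a)).extremePoints ℝ ∧
    (fun k => u k j) ∈ (convexHull ℝ (Set.range fun a k => u k a)).extremePoints ℝ ∧
    ¬ IsExtreme ℝ (convexHull ℝ (Set.range fun a k => u k a))
      (segment ℝ (fun k => u k i) (fun k => u k j)) := by
  have hP : ∀ y ∈ convexHull ℝ (Set.range fun a k => uu k a), |y 0| + |y 1| ≤ 1 := by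
    intro y hy
    refine convexHull_min (t := {y : Fin 2 → ℝ | |y 0| + |y 1| ≤ 1}) ?_ ?_ hy
    · rintro _ ⟨a, rfl⟩
      fin_cases a <;> simp [uu] <;> norm_num
    · intro x hx y hy a b ha hb hab
      simp only [Set.mem_ofPred_eq, Pi.add_apply, Pi.smul_apply, smul_eq_mul] at hx hy ⊢
      have h0 := abs_add_le (a * x 0) (b * y 0)
      have h1 := abs_add_le (a * x 1) (b * y 1)
      rw [abs_mul, abs_mul, abs_of_nonneg ha, abs_of_nonneg hb] at h0 h1
      nlinarith
  have hv : ∀ a, (fun k => uu k a) ∈ convexHull ℝ (Set.range fun a k => uu k a) := fun a =>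
    subset_convexHull ℝ _ ⟨a, rfl⟩
  have hex : ∀ (a : Fin 12) (s : ℝ), s = 1 ∨ s = -1 → uu 0 a = s → uu 1 a = 0 →
      (fun k => uu k a) ∈ (convexHull ℝ (Set.range fun a k => uu k a)).extremePoints ℝ := by
    intro a s hs e0 e1
    refine mem_extremePoints_iff_left.2 ⟨hv a, fun x hx y hy ⟨p, q, hp, hq, hpq, h⟩ => ?_⟩
    have h0 := congrFun h 0
    simp only [Pi.add_apply, Pi.smul_apply, smul_eq_mul, e0] at h0
    have a1 := hP x hx
    have a2 := hP y hy
    have a3 := abs_nonneg (x 1)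
    have a4 := abs_nonneg (y 1)
    have a5 := abs_le.1 (show |x 0| ≤ 1 by linarith)
    have a6 := abs_le.1 (show |y 0| ≤ 1 by linarith)
    have b0 : x 0 = s := by
      rcases hs with rfl | rfl <;> nlinarith [a5.1, a5.2, a6.1, a6.2]
    have b1 : |x 0| = 1 := by rcases hs with rfl | rfl <;> simp [b0]
    have b2 : x 1 = 0 := abs_eq_zero.1 (by linarith)
    funext k
    fin_cases k
    · exact b0.trans e0.symm
    · exact b2.trans e1.symm
  refine ⟨GG, inferInstance, 9, 1, uu, 0, 3, by decide +kernel, ?_, by norm_num, ?_, ?_, ?_, ?_,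
    by decide, ?_, hex 0 1 (Or.inl rfl) (by simp [uu]) (by simp [uu]),
    hex 3 (-1) (Or.inr rfl) (by simp [uu]; norm_num) (by simp [uu]), ?_⟩
  · intro v; revert v; decide +kernel
  · refine End.hasEigenvalue_of_hasEigenvector (x := fun _ => 1) ⟨?_, ?_⟩
    · rw [mem_iff]; intro i; simp; norm_num
    · intro h; simpa using congrFun h 0
  · intro m hm
    by_contra hh
    push Not at hh
    obtain ⟨x, hx, hx0⟩ := hm.exists_hasEigenvector
    rw [mem_iff] at hx
    have hs := sum0 m x hx hh.1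
    obtain ⟨i, hi⟩ := Finite.exists_max fun i => |x i|
    have h1 := hx i
    have h2 : (1 + m) * x i = -(x (nx i) + x (pv i)) := by linarith
    have h3 := congrArg abs h2
    rw [abs_mul, abs_neg, abs_of_pos (by linarith [hh.2])] at h3
    have h4 := abs_add_le (x (nx i)) (x (pv i))
    have h5 := hi (nx i)
    have h6 := hi (pv i)
    have h7 : |x i| ≤ 0 := by nlinarith [hh.2, abs_nonneg (x i)]
    exact hx0 (funext fun j => abs_nonpos_iff.1 ((hi j).trans h7))
  · rw [Fintype.linearIndependent_iff]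
    intro g hg k
    have h0 := congrFun hg 0
    have h6 := congrFun hg 6
    simp [uu, Fin.sum_univ_two] at h0 h6
    fin_cases k
    · exact h0
    · norm_num at h6; exact h6
  · apply le_antisymm
    · rw [Submodule.span_le]
      rintro _ ⟨k, rfl⟩
      exact uu_mem k
    · intro x hx
      rw [mem_iff] at hx
      have hs := sum0 1 x hx (by norm_num)
      simp only [hs] at hx
      have e0 : 0 - x 0 - x 1 - x 5 = 1 * x 0 := hx 0
      have e1 : 0 - x 1 - x 2 - x 0 = 1 * x 1 := hx 1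
      have e2 : 0 - x 2 - x 3 - x 1 = 1 * x 2 := hx 2
      have e3 : 0 - x 3 - x 4 - x 2 = 1 * x 3 := hx 3
      have e4 : 0 - x 4 - x 5 - x 3 = 1 * x 4 := hx 4
      have e6 : 0 - x 6 - x 7 - x 11 = 1 * x 6 := hx 6
      have e7 : 0 - x 7 - x 8 - x 6 = 1 * x 7 := hx 7
      have e8 : 0 - x 8 - x 9 - x 7 = 1 * x 8 := hx 8
      have e9 : 0 - x 9 - x 10 - x 8 = 1 * x 9 := hx 9
      have e10 : 0 - x 10 - x 11 - x 9 = 1 * x 10 := hx 10
      rw [Submodule.mem_span_range_iff_exists_fun]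
      refine ⟨![x 0, x 6], funext fun i => ?_⟩
      fin_cases i <;> simp [uu, Fin.sum_univ_two] <;> norm_num <;> linarith
  · intro h
    have := congrFun h 0
    simp [uu] at this
    norm_num at this
  · intro h
    have h0 : (0 : Fin 2 → ℝ) ∈ segment ℝ (fun k => uu k 0) (fun k => uu k 3) :=
      ⟨1 / 2, 1 / 2, by norm_num, by norm_num, by norm_num, funext fun k => by
        fin_cases k <;> simp [uu] <;> norm_num⟩
    have h1 : (0 : Fin 2 → ℝ) ∈ openSegment ℝ (fun k => uu k 6) (fun k => uu k 7) :=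
      ⟨1 / 2, 1 / 2, by norm_num, by norm_num, by norm_num, funext fun k => by
        fin_cases k <;> simp [uu] <;> norm_num⟩
    obtain ⟨p, q, -, -, -, e⟩ := h.left_mem_of_mem_openSegment (hv 6) (hv 7) h0 h1
    have := congrFun e 1
    simp [uu] at this
    norm_num at this

end Pool.Agent.Results.MP_0d5a8e_co.Diag
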